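import Pool.Agent.Helper16.GT.Stmt
import Pool.Agent.Helper16.BBCurveRank

set_option autoImplicit false
set_option linter.unusedSectionVars false

/-! Project TT, block F: the rank argument. -/

namespace Pool.Agent.TT.F

open Pool.Agent.Helper16 Pool.Agent.Helper16.BB Pool.Agent.Helper16.GT

/-- Let `R φ γ` be an additive relation between functionals and elements of a group, such that every
functional has a multiple in relation, and `R φ 0` only if `φ` vanishes on `A`. Then the dimension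
of `A` is at most the rank of the group. -/
theorem rank_le {V : Type} [AddCommGroup V] [Module ℚ V] (A : Submodule ℚ V) {Γ : Type}
    [AddCommGroup Γ] (R : (V →ₗ[ℚ] ℚ) → Γ → Prop)
    (hex : ∀ φ, ∃ n : ℕ, 0 < n ∧ ∃ γ, R ((n : ℚ) • φ) γ)
    (hadd : ∀ φ ψ γ γ', R φ γ → R ψ γ' → R (φ + ψ) (γ + γ')) (hz : R 0 0)
    (hsmul : ∀ φ γ (z : ℤ), R φ γ → R ((z : ℚ) • φ) (z • γ))
    (hker : ∀ φ, R φ 0 → ∀ a ∈ A, φ a = 0) : Module.rank ℚ A ≤ Module.rank ℤ Γ := by
  classical
  let b := Module.Basis.ofVectorSpace ℚ A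
  have h1 : ∀ i, ∃ φ : V →ₗ[ℚ] ℚ, ∀ a : A, φ a = b.coord i a := by
    intro i
    obtain ⟨φ, hφ⟩ := LinearMap.exists_extend (b.coord i)
    exact ⟨φ, fun a => by rw [← hφ]; rfl⟩
  choose φ hφ using h1
  choose n hn γ hγ using fun i => hex (φ i)
  have h2 : LinearIndependent ℤ γ := by
    rw [linearIndependent_iff']
    intro s g hg i hi
    have h3 : ∀ t : Finset (Module.Basis.ofVectorSpaceIndex ℚ A),
        R (∑ i ∈ t, (g i : ℚ) • ((n i : ℚ) • φ i)) (∑ i ∈ t, g i • γ i) := by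
      intro t
      induction t using Finset.induction_on with
      | empty => simpa using hz
      | insert a t ha ih =>
        rw [Finset.sum_insert ha, Finset.sum_insert ha]
        exact hadd _ _ _ _ (hsmul _ _ _ (hγ a)) ih
    have h4 := h3 s
    rw [hg] at h4
    have h5 := hker _ h4 (b i) (b i).2
    have h6 : ∀ j, φ j (b i : V) = if i = j then 1 else 0 := by
      intro j
      rw [hφ j (b i), Module.Basis.coord_apply, Module.Basis.repr_self, Finsupp.single_apply]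
    rw [LinearMap.sum_apply] at h5
    have h7 : ∀ j ∈ s, ((g j : ℚ) • ((n j : ℚ) • φ j)) (b i : V) =
        if i = j then (g j : ℚ) * n j else 0 := by
      intro j _
      rw [LinearMap.smul_apply, LinearMap.smul_apply, h6 j, smul_eq_mul, smul_eq_mul]
      split_ifs <;> ring
    rw [Finset.sum_congr rfl h7, Finset.sum_ite_eq, if_pos hi] at h5
    have h8 : (n i : ℚ) ≠ 0 := by exact_mod_cast (hn i).ne'
    exact_mod_cast (mul_eq_zero.1 h5).resolve_right h8
  have h3 := h2.cardinal_le_rank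
  rwa [b.mk_eq_rank''] at h3

/-- The rank bound, from an additive relation between functionals and divisors. -/
theorem dimA0_le {K σ : Type} [Field K] [Finite σ] (I : Set (MvPolynomial σ K))
    (R : (Quo (wOne σ) I →ₗ[ℚ] ℚ) → Dv (Ideal.span I) → Prop)
    (hNT : ∀ φ D, R φ D → D ∈ NumTriv (Ideal.span I))
    (hex : ∀ φ, ∃ n : ℕ, 0 < n ∧ ∃ D, R ((n : ℚ) • φ) D)
    (hadd : ∀ φ ψ D D', R φ D → R ψ D' → R (φ + ψ) (D + D')) (hz : R 0 0)
    (hsmul : ∀ φ D (z : ℤ), R φ D → R ((z : ℚ) • φ) (z • D))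
    (hker : ∀ φ D, R φ D → D ∈ Prin (Ideal.span I) → ∃ c : ℚ, ∀ x : σ → AlgebraicClosure K,
      IsPoint (wOne σ) I x → φ (cls (wOne σ) I x) = c) :
    dimA0 (wOne σ) I ≤ rankNT (Ideal.span I) := by
  rw [dimA0, rank_A0, rankNT]
  refine rank_le _ (fun φ γ => ∃ D, ∃ h : R φ D,
    (QuotientAddGroup.mk (⟨D, hNT φ D h⟩ : NumTriv (Ideal.span I)) :
      NumTriv (Ideal.span I) ⧸ (Prin (Ideal.span I)).addSubgroupOf (NumTriv (Ideal.span I))) = γ)
    ?_ ?_ ?_ ?_ ?_
  · intro φ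
    obtain ⟨n, hn, D, hD⟩ := hex φ
    exact ⟨n, hn, _, D, hD, rfl⟩
  · rintro φ ψ _ _ ⟨D, h, rfl⟩ ⟨D', h', rfl⟩
    exact ⟨D + D', hadd _ _ _ _ h h', rfl⟩
  · exact ⟨0, hz, rfl⟩
  · rintro φ _ z ⟨D, h, rfl⟩
    exact ⟨z • D, hsmul _ _ _ h, rfl⟩
  · rintro φ ⟨D, h, h0⟩ a ha
    rw [QuotientAddGroup.eq_zero_iff, AddSubgroup.mem_addSubgroupOf] at h0
    obtain ⟨c, hc⟩ := hker φ D h h0
    have h1 : ∀ y ∈ Zq (wOne σ) I, φ y = c * degQ (wOne σ) I y := by
      intro y hy
      rw [Zq] at hy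
      induction hy using Submodule.span_induction with
      | mem y hy =>
        obtain ⟨x, hx, rfl⟩ := hy
        rw [hc x hx, degQ_cls, mul_one]
      | zero => simp
      | add y z _ _ h1 h2 => rw [map_add, map_add, h1, h2, mul_add]
      | smul a y _ h1 =>
        rw [map_smul, map_smul, h1, smul_eq_mul, smul_eq_mul]
        ring
    rw [h1 a ha.1, LinearMap.mem_ker.1 ha.2, mul_zero]

end Pool.Agent.TT.F
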